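import Pool.Agent.Helper22.FF.Abs
import Pool.Agent.Helper22.TW.Stmts

/-!
# FF: module I_DWG
-/

set_option autoImplicit false

namespace Pool.Agent.Helper22.FF

open Pool.Agent.Helper14.BSC Polynomial Pool.Agent.Helper60.FF Pool.Agent.Helper18.FF3

theorem st_DWG (hR : Pool.Agent.Helper22.TW.ST_RPL) (hU : Pool.Agent.Helper22.TW.ST_UNQ) :
    ST_DWG := by
  intro k k' Ω _ _ _ _ _ _ _ j D D' hc hL p _ σ σ' hσ P P' x x' hx
  have e : σ = σ'.comp j := RingHom.ext fun c => (hσ c).symm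
  subst e
  obtain ⟨P₁, h1⟩ := hR k k' Ω j D D' hc
    (fun x h g => (mem_NN.1 (hL x (mem_NN.2 fun g _ => h g))) g (fun a ha => ha.elim)) p σ' P'
  obtain ⟨h2, h3⟩ := hU k Ω D p (σ'.comp j) P P₁
  obtain ⟨h4, h5⟩ := h1 x x' hx
  refine ⟨by rw [h2]; exact h4, fun hxP hxP' => ?_⟩
  have hx1 : x ∈ P₁.C := h4.2 hxP'
  rw [h3 x hxP hx1, h5 hx1 hxP']

end Pool.Agent.Helper22.FF
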